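import Pool.Agent.Helper25.KV.Goals

/-!
# Project KV (`MP_66be51_an`), packet LIM

Compactness: an abstract Arzela-Ascoli statement with a diagonal sequence.
-/

namespace Pool.Agent.Helper25.KV

open Real MeasureTheory Set Filter Topology

/-- The hypothesis of `H_LIM`. -/
def LimHyp (T : ℝ) (U : ℕ → ℝ → ℝ → ℝ) : Prop :=
  ∀ t0 : ℝ, 0 < t0 → t0 < T → ∀ R : ℝ, 0 < R → ∃ M : ℝ, ∀ᶠ n in atTop,
      ∀ t ∈ Icc t0 T, ∀ x, |x| ≤ R → |U n t x| ≤ M ∧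
        ∀ s ∈ Icc t0 T, ∀ y, |y| ≤ R → |t - s| ≤ 1 →
          |U n t x - U n s y| ≤ M * (|x - y| ^ ((1 : ℝ) / 2) + |t - s| ^ ((1 : ℝ) / 7))

theorem LimHyp.unif {T : ℝ} {U : ℕ → ℝ → ℝ → ℝ} (h : LimHyp T U) (t0 : ℝ) (ht0 : 0 < t0)
    (htT : t0 < T) (R : ℝ) (hR : 0 < R) :
    ∃ M : ℝ, 0 ≤ M ∧ ∀ᶠ n in (hyperfilter ℕ : Filter ℕ),
      ∀ t ∈ Icc t0 T, ∀ x, |x| ≤ R → |U n t x| ≤ M ∧
        ∀ s ∈ Icc t0 T, ∀ y, |y| ≤ R → |t - s| ≤ 1 →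
          |U n t x - U n s y| ≤ M * (|x - y| ^ ((1 : ℝ) / 2) + |t - s| ^ ((1 : ℝ) / 7)) := by
  obtain ⟨M, hM⟩ := h t0 ht0 htT R hR
  refine ⟨|M|, abs_nonneg _, ?_⟩
  have hM' := hM.filter_mono Nat.hyperfilter_le_atTop
  filter_upwards [hM'] with n hn t ht x hx
  obtain ⟨h1, h2⟩ := hn t ht x hx
  refine ⟨h1.trans (le_abs_self _), fun s hs y hy hts => (h2 s hs y hy hts).trans ?_⟩
  apply mul_le_mul_of_nonneg_right (le_abs_self _)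
  positivity

theorem LimHyp.exists_lim {T : ℝ} {U : ℕ → ℝ → ℝ → ℝ} (h : LimHyp T U) (hT : 0 < T)
    (t : ℝ) (ht : 0 < t) (htT : t ≤ T) (x : ℝ) :
    ∃ L : ℝ, Tendsto (fun n => U n t x) (hyperfilter ℕ : Filter ℕ) (𝓝 L) := by
  obtain ⟨M, -, hM⟩ := h.unif (t / 2) (by linarith) (by linarith) (|x| + 1) (by positivity)
  have h1 : ∀ᶠ n in (hyperfilter ℕ : Filter ℕ), U n t x ∈ Icc (-M) M := by
    filter_upwards [hM] with n hn
    have := (hn t ⟨by linarith, htT⟩ x (by linarith)).1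
    exact abs_le.mp this
  have h2 : ((hyperfilter ℕ).map (fun n => U n t x) : Filter ℝ) ≤ 𝓟 (Icc (-M) M) := by
    rw [le_principal_iff]
    exact h1
  obtain ⟨L, -, hL⟩ := isCompact_Icc.ultrafilter_le_nhds ((hyperfilter ℕ).map (fun n => U n t x)) h2
  exact ⟨L, hL⟩

open Classical in
/-- The limit function. -/
noncomputable def limU (_T : ℝ) (U : ℕ → ℝ → ℝ → ℝ) (t x : ℝ) : ℝ :=
  if h : ∃ L : ℝ, Tendsto (fun n => U n t x) (hyperfilter ℕ : Filter ℕ) (𝓝 L) then h.choose else 0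

theorem LimHyp.tendsto {T : ℝ} {U : ℕ → ℝ → ℝ → ℝ} (h : LimHyp T U) (hT : 0 < T)
    (t : ℝ) (ht : 0 < t) (htT : t ≤ T) (x : ℝ) :
    Tendsto (fun n => U n t x) (hyperfilter ℕ : Filter ℕ) (𝓝 (limU T U t x)) := by
  have h1 := h.exists_lim hT t ht htT x
  unfold limU
  rw [dif_pos h1]
  exact h1.choose_spec

theorem LimHyp.limbound {T : ℝ} {U : ℕ → ℝ → ℝ → ℝ} (h : LimHyp T U) (hT : 0 < T)
    (t0 M R : ℝ) (ht0 : 0 < t0)
    (hM : ∀ᶠ n in (hyperfilter ℕ : Filter ℕ),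
      ∀ t ∈ Icc t0 T, ∀ x, |x| ≤ R → |U n t x| ≤ M ∧
        ∀ s ∈ Icc t0 T, ∀ y, |y| ≤ R → |t - s| ≤ 1 →
          |U n t x - U n s y| ≤ M * (|x - y| ^ ((1 : ℝ) / 2) + |t - s| ^ ((1 : ℝ) / 7)))
    (t : ℝ) (ht : t ∈ Icc t0 T) (x : ℝ) (hx : |x| ≤ R) (s : ℝ) (hs : s ∈ Icc t0 T) (y : ℝ)
    (hy : |y| ≤ R) (hts : |t - s| ≤ 1) :
    |limU T U t x - limU T U s y| ≤ M * (|x - y| ^ ((1 : ℝ) / 2) + |t - s| ^ ((1 : ℝ) / 7)) := by
  have h1 := h.tendsto hT t (lt_of_lt_of_le ht0 ht.1) ht.2 x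
  have h2 := h.tendsto hT s (lt_of_lt_of_le ht0 hs.1) hs.2 y
  have h3 := (h1.sub h2).abs
  refine le_of_tendsto h3 ?_
  filter_upwards [hM] with n hn
  exact (hn t ht x hx).2 s hs y hy hts

theorem LimHyp.cont {T : ℝ} {U : ℕ → ℝ → ℝ → ℝ} (h : LimHyp T U) (hT : 0 < T) :
    ContinuousOn (fun p : ℝ × ℝ => limU T U p.1 p.2) (Ioc 0 T ×ˢ univ) := by
  rintro ⟨t, x⟩ ⟨⟨ht, htT⟩, -⟩
  simp only at ht htT
  obtain ⟨M, hM0, hM⟩ := h.unif (t / 2) (by linarith) (by linarith) (|x| + 1) (by positivity)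
  have hb := h.limbound hT (t / 2) M (|x| + 1) (by linarith) hM
  unfold ContinuousWithinAt
  rw [tendsto_iff_dist_tendsto_zero]
  have hlim : Tendsto (fun p : ℝ × ℝ => M * (|p.2 - x| ^ ((1 : ℝ) / 2) + |p.1 - t| ^ ((1 : ℝ) / 7)))
      (𝓝[Ioc 0 T ×ˢ univ] (t, x)) (𝓝 0) := by
    have hc : ContinuousAt
        (fun p : ℝ × ℝ => M * (|p.2 - x| ^ ((1 : ℝ) / 2) + |p.1 - t| ^ ((1 : ℝ) / 7))) (t, x) := by
      apply ContinuousAt.mul continuousAt_const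
      apply ContinuousAt.add
      · apply ContinuousAt.rpow_const _ (Or.inr (by norm_num))
        fun_prop
      · apply ContinuousAt.rpow_const _ (Or.inr (by norm_num))
        fun_prop
    have h0 := hc.tendsto
    have hz : M * (|x - x| ^ ((1 : ℝ) / 2) + |t - t| ^ ((1 : ℝ) / 7)) = 0 := by
      simp
    simp only [hz] at h0
    exact h0.mono_left nhdsWithin_le_nhds
  refine squeeze_zero' (Eventually.of_forall fun _ => dist_nonneg) ?_ hlim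
  have e1 : ∀ᶠ p : ℝ × ℝ in 𝓝[Ioc 0 T ×ˢ univ] (t, x), p ∈ Ioc 0 T ×ˢ (univ : Set ℝ) :=
    eventually_mem_nhdsWithin
  have e2 : ∀ᶠ p : ℝ × ℝ in 𝓝[Ioc 0 T ×ˢ univ] (t, x), t / 2 < p.1 := by
    apply nhdsWithin_le_nhds
    exact continuousAt_fst.eventually (lt_mem_nhds (show t / 2 < t by linarith))
  have e3 : ∀ᶠ p : ℝ × ℝ in 𝓝[Ioc 0 T ×ˢ univ] (t, x), |p.1 - t| < 1 := by
    apply nhdsWithin_le_nhds
    have hc : ContinuousAt (fun p : ℝ × ℝ => |p.1 - t|) (t, x) := by fun_prop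
    exact hc.eventually (gt_mem_nhds (by simp))
  have e4 : ∀ᶠ p : ℝ × ℝ in 𝓝[Ioc 0 T ×ˢ univ] (t, x), |p.2| < |x| + 1 := by
    apply nhdsWithin_le_nhds
    have hc : ContinuousAt (fun p : ℝ × ℝ => |p.2|) (t, x) := by fun_prop
    exact hc.eventually (gt_mem_nhds (by simp))
  filter_upwards [e1, e2, e3, e4] with p h1 h2 h3 h4
  rw [Real.dist_eq]
  exact hb p.1 ⟨h2.le, h1.1.2⟩ p.2 h4.le t ⟨by linarith, htT⟩ x (by linarith) h3.le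

theorem LimHyp.locunif {T : ℝ} {U : ℕ → ℝ → ℝ → ℝ} (h : LimHyp T U) (hT : 0 < T)
    (t0 : ℝ) (ht0 : 0 < t0) (htT : t0 < T) (R : ℝ) (hR : 0 < R) (ε : ℝ) (hε : 0 < ε) :
    ∀ᶠ n in (hyperfilter ℕ : Filter ℕ), ∀ t ∈ Icc t0 T, ∀ x, |x| ≤ R →
      |U n t x - limU T U t x| ≤ ε := by
  obtain ⟨M, hM0, hM⟩ := h.unif t0 ht0 htT R hR
  have hb := h.limbound hT t0 M R ht0 hM
  -- choice of δ
  have hδ : ∃ δ : ℝ, 0 < δ ∧ δ ≤ 1 ∧ M * (δ ^ ((1 : ℝ) / 2) + δ ^ ((1 : ℝ) / 7)) ≤ ε / 3 := by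
    have hc : Tendsto (fun δ : ℝ => M * (δ ^ ((1 : ℝ) / 2) + δ ^ ((1 : ℝ) / 7))) (𝓝 0) (𝓝 0) := by
      have hc : ContinuousAt (fun δ : ℝ => M * (δ ^ ((1 : ℝ) / 2) + δ ^ ((1 : ℝ) / 7))) 0 := by
        apply ContinuousAt.mul continuousAt_const
        apply ContinuousAt.add
        · exact ContinuousAt.rpow_const continuousAt_id (Or.inr (by norm_num))
        · exact ContinuousAt.rpow_const continuousAt_id (Or.inr (by norm_num))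
      have h0 := hc.tendsto
      have hz : M * ((0 : ℝ) ^ ((1 : ℝ) / 2) + (0 : ℝ) ^ ((1 : ℝ) / 7)) = 0 := by
        rw [Real.zero_rpow (by norm_num), Real.zero_rpow (by norm_num)]; simp
      simp only [hz] at h0
      exact h0
    have h1 : ∀ᶠ δ : ℝ in 𝓝[>] 0, M * (δ ^ ((1 : ℝ) / 2) + δ ^ ((1 : ℝ) / 7)) < ε / 3 := by
      apply nhdsWithin_le_nhds
      exact hc.eventually (gt_mem_nhds (by positivity))
    have h2 : ∀ᶠ δ : ℝ in 𝓝[>] 0, δ < 1 := by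
      apply nhdsWithin_le_nhds
      exact gt_mem_nhds one_pos
    obtain ⟨δ, ⟨h3, h4⟩, h5⟩ := ((h1.and h2).and self_mem_nhdsWithin).exists
    exact ⟨δ, h5, h4.le, h3.le⟩
  obtain ⟨δ, hδ0, hδ1, hδ⟩ := hδ
  have hK : IsCompact (Icc t0 T ×ˢ Icc (-R) R) := isCompact_Icc.prod isCompact_Icc
  obtain ⟨S, hSK, hSf, hSc⟩ := hK.finite_cover_balls hδ0
  have hS : ∀ᶠ n in (hyperfilter ℕ : Filter ℕ), ∀ p ∈ S, |U n p.1 p.2 - limU T U p.1 p.2| ≤ ε / 3 := by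
    rw [hSf.eventually_all]
    intro p hp
    have hpK := hSK hp
    have h1 := h.tendsto hT p.1 (lt_of_lt_of_le ht0 hpK.1.1) hpK.1.2 p.2
    have h2 : Tendsto (fun n => |U n p.1 p.2 - limU T U p.1 p.2|) (hyperfilter ℕ : Filter ℕ) (𝓝 0) := by
      have := (h1.sub_const (limU T U p.1 p.2)).abs
      simpa using this
    filter_upwards [h2.eventually (gt_mem_nhds (show (0 : ℝ) < ε / 3 by positivity))] with n hn
    exact hn.le
  filter_upwards [hM, hS] with n hn hnS t ht x hx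
  have hmem : (t, x) ∈ Icc t0 T ×ˢ Icc (-R) R := ⟨ht, abs_le.mp hx⟩
  obtain ⟨p, hp, hpb⟩ := mem_iUnion₂.mp (hSc hmem)
  have hpK := hSK hp
  rw [Metric.mem_ball, Prod.dist_eq, max_lt_iff, Real.dist_eq, Real.dist_eq] at hpb
  obtain ⟨hd1, hd2⟩ := hpb
  simp only at hd1 hd2
  have hle : M * (|x - p.2| ^ ((1 : ℝ) / 2) + |t - p.1| ^ ((1 : ℝ) / 7)) ≤ ε / 3 := by
    refine le_trans ?_ hδ
    apply mul_le_mul_of_nonneg_left _ hM0
    apply add_le_add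
    · exact Real.rpow_le_rpow (abs_nonneg _) hd2.le (by norm_num)
    · exact Real.rpow_le_rpow (abs_nonneg _) hd1.le (by norm_num)
  have hp2 : |p.2| ≤ R := abs_le.mpr hpK.2
  have a1 := ((hn t ht x hx).2 p.1 hpK.1 p.2 hp2 (by linarith)).trans hle
  have a2 := (hb t ht x hx p.1 hpK.1 p.2 hp2 (by linarith)).trans hle
  have a3 := hnS p hp
  rw [abs_le] at a1 a2 a3 ⊢
  constructor <;> linarith [a1.1, a1.2, a2.1, a2.2, a3.1, a3.2]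

theorem thm_LIM : H_LIM := by
  intro T U hT hU
  have h : LimHyp T U := hU
  have hmem : ∀ j : ℕ, ∃ n : ℕ, j ≤ n ∧ ∀ t ∈ Icc (T / (j + 2)) T, ∀ x, |x| ≤ (j : ℝ) + 1 →
      |U n t x - limU T U t x| ≤ 1 / ((j : ℝ) + 1) := by
    intro j
    have hj : (0 : ℝ) ≤ j := Nat.cast_nonneg j
    have h1 : T / (j + 2) < T := by
      rw [div_lt_iff₀ (by positivity)]
      nlinarith
    have e1 := h.locunif hT (T / (j + 2)) (by positivity) h1 ((j : ℝ) + 1) (by positivity)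
      (1 / ((j : ℝ) + 1)) (by positivity)
    have e2 : ∀ᶠ n in (hyperfilter ℕ : Filter ℕ), j ≤ n :=
      (eventually_ge_atTop j).filter_mono Nat.hyperfilter_le_atTop
    obtain ⟨n, hn1, hn2⟩ := (e2.and e1).exists
    exact ⟨n, hn1, hn2⟩
  choose ns hns1 hns2 using hmem
  refine ⟨ns, limU T U, hns1, h.cont hT, ?_⟩
  intro t0 ht0 htT R hR ε hε
  have e1 : ∀ᶠ j : ℕ in atTop, R ≤ (j : ℝ) :=
    (tendsto_natCast_atTop_atTop).eventually (eventually_ge_atTop R)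
  have e2 : ∀ᶠ j : ℕ in atTop, T / t0 ≤ (j : ℝ) :=
    (tendsto_natCast_atTop_atTop).eventually (eventually_ge_atTop _)
  have e3 : ∀ᶠ j : ℕ in atTop, 1 / ε ≤ (j : ℝ) :=
    (tendsto_natCast_atTop_atTop).eventually (eventually_ge_atTop _)
  filter_upwards [e1, e2, e3] with j h1 h2 h3 t ht x hx
  have hj : (0 : ℝ) ≤ j := Nat.cast_nonneg j
  have h4 : T / ((j : ℝ) + 2) ≤ t0 := by
    rw [div_le_iff₀ (by positivity)]
    rw [div_le_iff₀ ht0] at h2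
    nlinarith
  have h5 : 1 / ((j : ℝ) + 1) ≤ ε := by
    rw [div_le_iff₀ (by positivity)]
    rw [div_le_iff₀ hε] at h3
    nlinarith
  exact (hns2 j t ⟨h4.trans ht.1, ht.2⟩ x (by linarith)).trans h5

end Pool.Agent.Helper25.KV
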