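import Pool.Agent.Helper33.KV.GoalsF2

/-!
# Project KV (`MP_66be51_an`), packet F-PSI: the pointwise equation of the modulated remainder
-/

namespace Pool.Agent.Helper33.KV

open Real MeasureTheory Pool.Agent.Helper41.KV Filter Topology Set

/-! ## Chain rule -/

theorem psi_mvt (f : ℝ → ℝ) (hf : Differentiable ℝ f) (p q : ℝ) :
    ∃ ξ, |ξ - p| ≤ |q - p| ∧ f q - f p = deriv f ξ * (q - p) := by
  rcases lt_trichotomy p q with h | h | h
  · obtain ⟨ξ, hξ, h1⟩ := exists_deriv_eq_slope f h hf.continuous.continuousOn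
      hf.differentiableOn
    refine ⟨ξ, ?_, ?_⟩
    · rw [abs_of_pos (by linarith [hξ.1]), abs_of_pos (by linarith)]
      linarith [hξ.2]
    · rw [h1, div_mul_cancel₀ _ (by linarith)]
  · exact ⟨p, by simp, by rw [h]; simp⟩
  · obtain ⟨ξ, hξ, h1⟩ := exists_deriv_eq_slope f h hf.continuous.continuousOn
      hf.differentiableOn
    refine ⟨ξ, ?_, ?_⟩
    · rw [abs_of_neg (by linarith [hξ.2]), abs_of_neg (by linarith)]
      linarith [hξ.1]
    · rw [h1]
      have : p - q ≠ 0 := by linarith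
      field_simp
      ring

theorem psi_comp (u w : ℝ → ℝ → ℝ) (t1 t2 : ℝ) (hu : HInf u t1 t2) (hw : HasTimeDeriv u w t1 t2)
    (X : ℝ → ℝ) (X' t : ℝ) (ht : t ∈ Icc t1 t2) (hX : HasDerivWithinAt X X' (Icc t1 t2) t) :
    HasDerivWithinAt (fun τ => u τ (X τ)) (w t (X t) + deriv (u t) (X t) * X') (Icc t1 t2) t := by
  have h1 : HasDerivWithinAt (fun τ => u τ (X t)) (w t (X t)) (Icc t1 t2) t := by
    have := hw 0 t ht (X t)
    simpa only [iteratedDeriv_zero] using this
  have hmv : ∀ τ, ∃ ξ, τ ∈ Icc t1 t2 → |ξ - X t| ≤ |X τ - X t| ∧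
      u τ (X τ) - u τ (X t) = deriv (u τ) ξ * (X τ - X t) := by
    intro τ
    by_cases hτ : τ ∈ Icc t1 t2
    · have hd : Differentiable ℝ (u τ) := (hu.smooth τ hτ).differentiable (by simp)
      obtain ⟨ξ, h2, h3⟩ := psi_mvt (u τ) hd (X t) (X τ)
      exact ⟨ξ, fun _ => ⟨h2, h3⟩⟩
    · exact ⟨0, fun h => absurd h hτ⟩
  choose ξ hξ using hmv
  have hXc : Tendsto (fun τ => |X τ - X t|) (𝓝[Icc t1 t2] t) (𝓝 0) := by
    have h2 := (hX.continuousWithinAt.sub_const (X t)).abs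
    have h3 : Tendsto (fun τ => |X τ - X t|) (𝓝[Icc t1 t2] t) (𝓝 |X t - X t|) := h2
    simpa using h3
  have hξc : Tendsto ξ (𝓝[Icc t1 t2] t) (𝓝 (X t)) := by
    rw [tendsto_iff_dist_tendsto_zero]
    refine squeeze_zero' (Eventually.of_forall fun _ => dist_nonneg) ?_ hXc
    filter_upwards [self_mem_nhdsWithin] with τ hτ
    rw [Real.dist_eq]
    exact (hξ τ hτ).1
  have hd : Tendsto (fun τ => deriv (u τ) (ξ τ)) (𝓝[Icc t1 t2] t) (𝓝 (deriv (u t) (X t))) := by
    have h2 := hu.cont 1 (t, X t) ⟨ht, mem_univ _⟩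
    have h3 : Tendsto (fun τ => (τ, ξ τ)) (𝓝[Icc t1 t2] t) (𝓝[Icc t1 t2 ×ˢ univ] (t, X t)) := by
      rw [tendsto_nhdsWithin_iff]
      refine ⟨?_, ?_⟩
      · rw [nhds_prod_eq]
        exact Tendsto.prodMk (tendsto_id.mono_left nhdsWithin_le_nhds) hξc
      · filter_upwards [self_mem_nhdsWithin] with τ hτ
        exact ⟨hτ, mem_univ _⟩
    have h4 := h2.tendsto.comp h3
    simpa only [iteratedDeriv_one, Function.comp_def] using h4
  have h2 : HasDerivWithinAt (fun τ => u τ (X τ) - u τ (X t)) (deriv (u t) (X t) * X')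
      (Icc t1 t2) t := by
    rw [hasDerivWithinAt_iff_tendsto_slope] at hX ⊢
    have hd' : Tendsto (fun τ => deriv (u τ) (ξ τ)) (𝓝[Icc t1 t2 \ {t}] t)
        (𝓝 (deriv (u t) (X t))) := hd.mono_left (nhdsWithin_mono _ sdiff_subset)
    refine (hd'.mul hX).congr' ?_
    filter_upwards [self_mem_nhdsWithin] with τ hτ
    rw [slope_def_field, slope_def_field, (hξ τ hτ.1).2]
    ring
  have h3 := h1.add h2
  have h4 : (fun τ => u τ (X t)) + (fun τ => u τ (X τ) - u τ (X t)) = fun τ => u τ (X τ) := by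
    funext τ
    simp
  rw [h4] at h3
  exact h3

/-- Time derivative of a function in inner variables. -/
theorem psi_inn (hC : S_CURVE) (α : ℝ) (hα : 0 < α) (hα1 : α < 1) (u w : ℝ → ℝ → ℝ) (t1 t2 : ℝ)
    (ht1 : 0 < t1) (hu : HInf u t1 t2) (hw : HasTimeDeriv u w t1 t2) (t : ℝ) (ht : t ∈ Icc t1 t2)
    (y : ℝ) :
    HasDerivWithinAt (fun τ => inn α u τ y)
      ((1 / lam α t ^ 3) * (lam α t ^ 3 * inn α w t y + deriv (inn α u t) y
        + (2 * α + 1) * rho α t * Lam (inn α u t) y)) (Icc t1 t2) t := by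
  have ht0 : 0 < t := ht1.trans_le ht.1
  obtain ⟨c1, c2, c3, c4, c5, c6, c7, c8⟩ := (hC α hα hα1).1 t ht0
  have hX : HasDerivWithinAt (fun τ => sig α τ + lam α τ * y)
      (1 / lam α t ^ 2 + (2 * α + 1) * rho α t / lam α t ^ 2 * y) (Icc t1 t2) t :=
    (c6.add (c7.mul_const y)).hasDerivWithinAt
  have h1 := psi_comp u w t1 t2 hu hw _ _ t ht hX
  have h2 : HasDerivWithinAt (fun τ => Real.sqrt (lam α τ))
      ((2 * α + 1) * rho α t / lam α t ^ 2 / (2 * Real.sqrt (lam α t))) (Icc t1 t2) t :=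
    (c7.sqrt c2.ne').hasDerivWithinAt
  have h3 := h2.mul h1
  have hder : deriv (inn α u t) y = Real.sqrt (lam α t) *
      (deriv (u t) (sig α t + lam α t * y) * lam α t) := by
    have hd : DifferentiableAt ℝ (u t) (sig α t + lam α t * y) :=
      ((hu.smooth t ht).differentiable (by simp)) _
    have h4 : HasDerivAt (fun y => sig α t + lam α t * y) (lam α t) y := by
      have := ((hasDerivAt_id y).const_mul (lam α t)).const_add (sig α t)
      simpa using this
    have h5 := (hd.hasDerivAt.comp y h4).const_mul (Real.sqrt (lam α t))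
    exact h5.deriv
  have hs : Real.sqrt (lam α t) ≠ 0 := (Real.sqrt_pos.2 c2).ne'
  have hs2 : lam α t = Real.sqrt (lam α t) ^ 2 := (Real.sq_sqrt c2.le).symm
  have h6 : (1 / lam α t ^ 3) * (lam α t ^ 3 * inn α w t y + deriv (inn α u t) y
        + (2 * α + 1) * rho α t * Lam (inn α u t) y) =
      (2 * α + 1) * rho α t / lam α t ^ 2 / (2 * Real.sqrt (lam α t)) *
        u t (sig α t + lam α t * y) + Real.sqrt (lam α t) * (w t (sig α t + lam α t * y) +
        deriv (u t) (sig α t + lam α t * y) *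
          (1 / lam α t ^ 2 + (2 * α + 1) * rho α t / lam α t ^ 2 * y)) := by
    unfold Lam
    rw [hder]
    simp only [inn]
    set s := Real.sqrt (lam α t) with hsdef
    rw [show lam α t = s ^ 2 from hs2]
    field_simp
    ring
  rw [h6]
  exact h3

/-! ## Jets -/

theorem psi_sm {f : ℝ → ℝ} (hf : ContDiff ℝ (⊤ : ℕ∞) f) :
    ContDiff ℝ (⊤ : ℕ∞) (deriv f) ∧ ∀ x, HasDerivAt f (deriv f x) x :=
  ⟨(contDiff_infty_iff_deriv.1 hf).2, fun x => ((hf.differentiable (by simp)) x).hasDerivAt⟩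

theorem psi_lin {U v A B : ℝ → ℝ} (hU : ContDiff ℝ (⊤ : ℕ∞) U) (hv : ContDiff ℝ (⊤ : ℕ∞) v)
    (hA : ContDiff ℝ (⊤ : ℕ∞) A) (hB : ContDiff ℝ (⊤ : ℕ∞) B) (a b : ℝ) (x : ℝ) :
    HasDerivAt (fun x => U x - v x - a * A x - b * B x)
      (deriv U x - deriv v x - a * deriv A x - b * deriv B x) x :=
  ((((psi_sm hU).2 x).sub ((psi_sm hv).2 x)).sub (((psi_sm hA).2 x).const_mul a)).sub
    (((psi_sm hB).2 x).const_mul b)

theorem psi_lin' {U v A B : ℝ → ℝ} (hU : ContDiff ℝ (⊤ : ℕ∞) U) (hv : ContDiff ℝ (⊤ : ℕ∞) v)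
    (hA : ContDiff ℝ (⊤ : ℕ∞) A) (hB : ContDiff ℝ (⊤ : ℕ∞) B) (a b : ℝ) :
    deriv (fun x => U x - v x - a * A x - b * B x) =
      fun x => deriv U x - deriv v x - a * deriv A x - b * deriv B x :=
  funext fun x => (psi_lin hU hv hA hB a b x).deriv

theorem psi_it2 (f : ℝ → ℝ) : iteratedDeriv 2 f = deriv (deriv f) := by
  rw [iteratedDeriv_succ, iteratedDeriv_one]

/-- the algebra -/
theorem psi_alg {U v A B : ℝ → ℝ} (hU : ContDiff ℝ (⊤ : ℕ∞) U) (hv : ContDiff ℝ (⊤ : ℕ∞) v)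
    (hA : ContDiff ℝ (⊤ : ℕ∞) A) (hB : ContDiff ℝ (⊤ : ℕ∞) B) (a b g ρ a' b' m dA dB res y : ℝ)
    (e : ℝ → ℝ) (he : e = fun x => U x - v x - a * A x - b * B x) :
    -deriv (fun x => iteratedDeriv 2 e x - e x + U x ^ 5 - (U x - e x) ^ 5) y
          + g * ρ * Lam e y
          - (res + (a' + (5 / 2) * g * ρ * a - m * ρ ^ 2 * b) * A y
              + (b' + 2 * a + g * ρ * b) * B y
              + a * ((dA + deriv (fun x => deriv (deriv A) x - A x + 5 * v x ^ 4 * A x) y
                - g * ρ * Lam A y) - 2 * B y - (5 / 2) * g * ρ * A y)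
              + b * ((dB + deriv (fun x => deriv (deriv B) x - B x + 5 * v x ^ 4 * B x) y
                - g * ρ * Lam B y) - g * ρ * B y + m * ρ ^ 2 * A y)
              + deriv (fun x => (U x - e x) ^ 5 - v x ^ 5
                  - 5 * v x ^ 4 * (U x - e x - v x)) y) =
      (-deriv (fun x => iteratedDeriv 2 U x + U x ^ 5) y + deriv U y + g * ρ * Lam U y)
      - (res - deriv (fun x => iteratedDeriv 2 v x + v x ^ 5) y + deriv v y + g * ρ * Lam v y)
      - (a' * A y + a * dA) - (b' * B y + b * dB) := by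
  obtain ⟨hU1, dU⟩ := psi_sm hU
  obtain ⟨hU2, dU1⟩ := psi_sm hU1
  obtain ⟨hU3, dU2⟩ := psi_sm hU2
  obtain ⟨hv1, dv⟩ := psi_sm hv
  obtain ⟨hv2, dv1⟩ := psi_sm hv1
  obtain ⟨hv3, dv2⟩ := psi_sm hv2
  obtain ⟨hA1, dA0⟩ := psi_sm hA
  obtain ⟨hA2, dA1⟩ := psi_sm hA1
  obtain ⟨hA3, dA2⟩ := psi_sm hA2
  obtain ⟨hB1, dB0⟩ := psi_sm hB
  obtain ⟨hB2, dB1⟩ := psi_sm hB1
  obtain ⟨hB3, dB2⟩ := psi_sm hB2
  have e1 : deriv e = fun x => deriv U x - deriv v x - a * deriv A x - b * deriv B x := by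
    rw [he]; exact psi_lin' hU hv hA hB a b
  have e2 : deriv (deriv e) = fun x => deriv (deriv U) x - deriv (deriv v) x
      - a * deriv (deriv A) x - b * deriv (deriv B) x := by
    rw [e1]; exact psi_lin' hU1 hv1 hA1 hB1 a b
  have d0 : ∀ x, HasDerivAt e (deriv U x - deriv v x - a * deriv A x - b * deriv B x) x := by
    intro x
    rw [he]; exact psi_lin hU hv hA hB a b x
  have d2 : ∀ x, HasDerivAt (iteratedDeriv 2 e) (deriv (deriv (deriv U)) x -
      deriv (deriv (deriv v)) x - a * deriv (deriv (deriv A)) x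
      - b * deriv (deriv (deriv B)) x) x := by
    intro x
    rw [psi_it2, e2]; exact psi_lin hU2 hv2 hA2 hB2 a b x
  have f1 := ((((d2 y).sub (d0 y)).add ((dU y).pow 5)).sub (((dU y).sub (d0 y)).pow 5)).deriv
  have f2 := (((dA2 y).sub (dA0 y)).add ((((dv y).pow 4).const_mul 5).mul (dA0 y))).deriv
  have f3 := (((dB2 y).sub (dB0 y)).add ((((dv y).pow 4).const_mul 5).mul (dB0 y))).deriv
  have f4 := (((((dU y).sub (d0 y)).pow 5).sub ((dv y).pow 5)).sub
    ((((dv y).pow 4).const_mul 5).mul (((dU y).sub (d0 y)).sub (dv y)))).deriv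
  have f5 := ((dU2 y).add ((dU y).pow 5)).deriv
  have f6 := ((dv2 y).add ((dv y).pow 5)).deriv
  have g1 : deriv (fun x => iteratedDeriv 2 e x - e x + U x ^ 5 - (U x - e x) ^ 5) y = _ := f1
  have g2 : deriv (fun x => deriv (deriv A) x - A x + 5 * v x ^ 4 * A x) y = _ := f2
  have g3 : deriv (fun x => deriv (deriv B) x - B x + 5 * v x ^ 4 * B x) y = _ := f3
  have g4 : deriv (fun x => (U x - e x) ^ 5 - v x ^ 5
                  - 5 * v x ^ 4 * (U x - e x - v x)) y = _ := f4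
  have g5 : deriv (fun x => iteratedDeriv 2 U x + U x ^ 5) y =
      deriv (deriv (deriv U)) y + (5 : ℕ) * U y ^ (5 - 1) * deriv U y := by
    rw [psi_it2]; exact f5
  have g6 : deriv (fun x => iteratedDeriv 2 v x + v x ^ 5) y =
      deriv (deriv (deriv v)) y + (5 : ℕ) * v y ^ (5 - 1) * deriv v y := by
    rw [psi_it2]; exact f6
  rw [g1, g2, g3, g4, g5, g6]
  unfold Lam
  rw [e1]
  simp only [he, Pi.sub_apply, Pi.pow_apply]
  push_cast
  ring

theorem thm_PSI (_hQ : S_QF) (_hE : S_ECL1) (hC : S_CURVE) (hT : S_TAUB) (hF : S_FLUXP) :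
    S_PSI := by
  intro α N0 K T C n Z Y V2 W Wt r r' hα hα1 hT0 hZ hY hV hB u t1 t2 ht1 ht12 ht2 hu a b a' b'
    hab t ht y
  have ht0 : 0 < t := ht1.trans_le ht.1
  obtain ⟨c1, c2, c3, c4, c5, c6, c7, c8⟩ := (hC α hα hα1).1 t ht0
  obtain ⟨hW, hWt, hWd⟩ := hB.hinf t1 t2 ht1 ht12.le ht2
  have hu1 := psi_inn hC α hα hα1 u _ t1 t2 ht1 hu.hinf hu.eqn t ht y
  have hW1 := psi_inn hC α hα hα1 W Wt t1 t2 ht1 hW hWd t ht y
  obtain ⟨ha, hb⟩ := hab t ht
  have hρ : HasDerivWithinAt (rho α) (2 * α * rho α t ^ 2 / lam α t ^ 3) (Icc t1 t2) t :=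
    c8.hasDerivWithinAt
  have hA1 : HasDerivWithinAt (fun τ => tauA α Z (rho α τ) y)
      (2 * α * rho α t ^ 2 / lam α t ^ 3 * kap α * (y * deriv Z y)) (Icc t1 t2) t :=
    ((hρ.mul_const (kap α)).mul_const (y * deriv Z y)).const_add (Lam Q y)
  have hB1 : HasDerivWithinAt (fun τ => tauB α Z V2 (rho α τ) y)
      (2 * α * rho α t ^ 2 / lam α t ^ 3 * kap α * deriv Z y +
        ((2 : ℕ) * rho α t ^ (2 - 1) * (2 * α * rho α t ^ 2 / lam α t ^ 3)) *
          (deriv V2 y - cc α * Z y)) (Icc t1 t2) t :=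
    (((hρ.mul_const (kap α)).mul_const (deriv Z y)).const_add (deriv Q y)).add
      ((hρ.pow 2).mul_const (deriv V2 y - cc α * Z y))
  have hmain := ((hu1.sub hW1).sub (ha.mul hA1)).sub (hb.mul hB1)
  have hfun : (((fun τ => inn α u τ y) - fun τ => inn α W τ y) -
      a * fun τ => tauA α Z (rho α τ) y) - b * (fun τ => tauB α Z V2 (rho α τ) y) =
      fun τ => etaI α Z V2 u W a b τ y := by
    funext τ
    simp [etaI]
  rw [hfun] at hmain
  -- smoothness
  have hUs : ContDiff ℝ (⊤ : ℕ∞) (inn α u t) := by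
    have := hu.hinf.smooth t ht
    unfold inn
    fun_prop
  have hvs : ContDiff ℝ (⊤ : ℕ∞) (inn α W t) := by
    have := hW.smooth t ht
    unfold inn
    fun_prop
  obtain ⟨hTE, -⟩ := hT α Z Y V2 hZ hY hV
  have hAs : ContDiff ℝ (⊤ : ℕ∞) (tauA α Z (rho α t)) := (hTE (rho α t)).1.1
  have hBs : ContDiff ℝ (⊤ : ℕ∞) (tauB α Z V2 (rho α t)) := (hTE (rho α t)).2.1.1
  have halg := psi_alg hUs hvs hAs hBs (a t) (b t) (2 * α + 1) (rho α t) (lam α t ^ 3 * a' t)
    (lam α t ^ 3 * b' t) ((4 / IQ) * cc α) (2 * α * rho α t ^ 2 * kap α * (y * deriv Z y))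
    (2 * α * rho α t ^ 2 * kap α * deriv Z y
        + 4 * α * rho α t ^ 3 * (deriv V2 y - cc α * Z y)) (resid α W Wt t y) y
    (etaI α Z V2 u W a b t) rfl
  have hFu := (hF α hα hα1 t ht0 u (hu.hinf.smooth t ht)).1 y
  have hFW := (hF α hα hα1 t ht0 W (hW.smooth t ht)).1 y
  have hr : resid α W Wt t y = lam α t ^ 3 * inn α Wt t y +
      lam α t ^ 3 * inn α (fun t x => deriv (flux (W t)) x) t y := by
    unfold resid inn
    ring
  have hn : inn α (fun t x => -deriv (flux (u t)) x) t y =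
      - inn α (fun t x => deriv (flux (u t)) x) t y := by
    unfold inn
    ring
  have hval : (1 / lam α t ^ 3) * (
          -deriv (fun x => iteratedDeriv 2 (etaI α Z V2 u W a b t) x - etaI α Z V2 u W a b t x
              + inn α u t x ^ 5 - (inn α u t x - etaI α Z V2 u W a b t x) ^ 5) y
          + (2 * α + 1) * rho α t * Lam (etaI α Z V2 u W a b t) y
          - (resid α W Wt t y + AA α a b a' t * tauA α Z (rho α t) y
              + BB α a b b' t * tauB α Z V2 (rho α t) y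
              + a t * srcA α Z V2 (inn α W t) (rho α t) y
              + b t * srcB α Z V2 (inn α W t) (rho α t) y
              + deriv (fun x => (inn α u t x - etaI α Z V2 u W a b t x) ^ 5 - inn α W t x ^ 5
                  - 5 * inn α W t x ^ 4 *
                    (inn α u t x - etaI α Z V2 u W a b t x - inn α W t x)) y)) =
      1 / lam α t ^ 3 * (lam α t ^ 3 * inn α (fun t x => -deriv (flux (u t)) x) t y
          + deriv (inn α u t) y + (2 * α + 1) * rho α t * Lam (inn α u t) y) -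
        1 / lam α t ^ 3 * (lam α t ^ 3 * inn α Wt t y + deriv (inn α W t) y
          + (2 * α + 1) * rho α t * Lam (inn α W t) y) -
        (a' t * tauA α Z (rho α t) y +
          a t * (2 * α * rho α t ^ 2 / lam α t ^ 3 * kap α * (y * deriv Z y))) -
        (b' t * tauB α Z V2 (rho α t) y +
          b t * (2 * α * rho α t ^ 2 / lam α t ^ 3 * kap α * deriv Z y +
        ((2 : ℕ) * rho α t ^ (2 - 1) * (2 * α * rho α t ^ 2 / lam α t ^ 3)) *
          (deriv V2 y - cc α * Z y))) := by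
    have hl : lam α t ^ 3 ≠ 0 := by positivity
    have e1 : -deriv (fun x => iteratedDeriv 2 (etaI α Z V2 u W a b t) x - etaI α Z V2 u W a b t x
              + inn α u t x ^ 5 - (inn α u t x - etaI α Z V2 u W a b t x) ^ 5) y
          + (2 * α + 1) * rho α t * Lam (etaI α Z V2 u W a b t) y
          - (resid α W Wt t y + AA α a b a' t * tauA α Z (rho α t) y
              + BB α a b b' t * tauB α Z V2 (rho α t) y
              + a t * srcA α Z V2 (inn α W t) (rho α t) y
              + b t * srcB α Z V2 (inn α W t) (rho α t) y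
              + deriv (fun x => (inn α u t x - etaI α Z V2 u W a b t x) ^ 5 - inn α W t x ^ 5
                  - 5 * inn α W t x ^ 4 *
                    (inn α u t x - etaI α Z V2 u W a b t x - inn α W t x)) y) =
        (-deriv (fun x => iteratedDeriv 2 (inn α u t) x + inn α u t x ^ 5) y
          + deriv (inn α u t) y + (2 * α + 1) * rho α t * Lam (inn α u t) y)
        - (resid α W Wt t y - deriv (fun x => iteratedDeriv 2 (inn α W t) x + inn α W t x ^ 5) y
          + deriv (inn α W t) y + (2 * α + 1) * rho α t * Lam (inn α W t) y)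
        - (lam α t ^ 3 * a' t * tauA α Z (rho α t) y +
          a t * (2 * α * rho α t ^ 2 * kap α * (y * deriv Z y)))
        - (lam α t ^ 3 * b' t * tauB α Z V2 (rho α t) y +
          b t * (2 * α * rho α t ^ 2 * kap α * deriv Z y
        + 4 * α * rho α t ^ 3 * (deriv V2 y - cc α * Z y))) := by
      rw [← halg]
      unfold AA BB srcA srcB calL
      ring
    rw [e1, hr, hFW, hn, ← hFu]
    field_simp
    push_cast
    ring
  rw [hval]
  exact hmain

end Pool.Agent.Helper33.KV
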