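import Pool.Agent.Helper41.KV.GoalsD

/-!
# Project KV (`MP_66be51_an`), packet CHN: the residual in inner variables
-/

namespace Pool.Agent.Helper41.KV

open Real MeasureTheory Pool.Agent.Helper33.KV

theorem chn_comp (v : ℝ → ℝ → ℝ) (T1 : ℝ)
    (hv : ContDiffOn ℝ (⊤ : ℕ∞) (fun q : ℝ × ℝ => v q.1 q.2) (Set.Ioo 0 T1 ×ˢ Set.univ))
    (t : ℝ) (ht : t ∈ Set.Ioo 0 T1) (X : ℝ → ℝ) (X' : ℝ) (hX : HasDerivAt X X' t) :
    HasDerivAt (fun τ => v τ (X τ)) (deriv (fun τ => v τ (X t)) t + deriv (v t) (X t) * X') t := by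
  have hmem : Set.Ioo 0 T1 ×ˢ (Set.univ : Set ℝ) ∈ nhds (t, X t) :=
    (isOpen_Ioo.prod isOpen_univ).mem_nhds ⟨ht, Set.mem_univ _⟩
  have hd : DifferentiableAt ℝ (fun q : ℝ × ℝ => v q.1 q.2) (t, X t) :=
    (hv.contDiffAt hmem).differentiableAt (by simp)
  have hL := hd.hasFDerivAt
  set L := fderiv ℝ (fun q : ℝ × ℝ => v q.1 q.2) (t, X t) with hLdef
  have h1 : HasDerivAt (fun τ => v τ (X t)) (L (1, 0)) t := by
    have h2 : HasDerivAt (fun τ : ℝ => (τ, X t)) ((1 : ℝ), (0 : ℝ)) t :=
      (hasDerivAt_id t).prodMk (hasDerivAt_const t (X t))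
    exact hL.comp_hasDerivAt t h2
  have h2 : HasDerivAt (v t) (L (0, 1)) (X t) := by
    have h3 : HasDerivAt (fun y : ℝ => (t, y)) ((0 : ℝ), (1 : ℝ)) (X t) :=
      (hasDerivAt_const (X t) t).prodMk (hasDerivAt_id (X t))
    exact hL.comp_hasDerivAt (X t) h3
  have h3 : HasDerivAt (fun τ => v τ (X τ)) (L (1, X')) t := by
    have h4 : HasDerivAt (fun τ : ℝ => (τ, X τ)) ((1 : ℝ), X') t :=
      (hasDerivAt_id t).prodMk hX
    exact hL.comp_hasDerivAt t h4
  have h4 : L (1, X') = deriv (fun τ => v τ (X t)) t + deriv (v t) (X t) * X' := by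
    rw [h1.deriv, h2.deriv]
    have h5 : ((1 : ℝ), X') = (1, 0) + X' • (0, 1) := by
      ext <;> simp
    rw [h5, map_add, map_smul, smul_eq_mul]
    ring
  rw [← h4]
  exact h3

theorem thm_CHN (hC : S_CURV) : S_CHN := by
  intro α v T1 hα hα1 hT1 hv t ht y
  have ht0 : 0 < t := ht.1
  obtain ⟨c1, c2, c3, c4, c5, c6, c7, c8, c9, c10⟩ := (hC α hα hα1).1 t ht0
  have hs : 0 < Real.sqrt (lam α t) := Real.sqrt_pos.2 c2
  have hs2 : lam α t = Real.sqrt (lam α t) ^ 2 := (Real.sq_sqrt c2.le).symm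
  have hx : (sig α t + lam α t * y - sig α t) / lam α t = y := by
    field_simp
    ring
  have hsm : ContDiff ℝ (⊤ : ℕ∞) (v t) := by
    have h1 : ContDiff ℝ (⊤ : ℕ∞) (fun y : ℝ => ((t : ℝ), y)) := by fun_prop
    exact hv.comp_contDiff h1 (fun y => ⟨ht, Set.mem_univ _⟩)
  have hinn : inn α (outr α v) t y = v t y := by
    unfold inn outr
    rw [hx]
    field_simp
  -- the time derivative
  have h3 : lam α t ^ 3 * inn α (fun t x => deriv (fun τ => outr α v τ x) t) t y
        = lam α t ^ 3 * deriv (fun τ => v τ y) t - deriv (v t) y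
          - (2 * α + 1) * rho α t * Lam (v t) y := by
    set x := sig α t + lam α t * y with hxdef
    have hX : HasDerivAt (fun τ => (x - sig α τ) / lam α τ)
        (((-(1 / lam α t ^ 2)) * lam α t - (x - sig α t) *
          ((2 * α + 1) * rho α t / lam α t ^ 2)) / lam α t ^ 2) t := by
      have := (c7.const_sub x).div c8 c2.ne'
      exact this
    have h4 := chn_comp v T1 hv t ht _ _ hX
    simp only [hx] at h4
    have h5 : HasDerivAt (fun τ => 1 / Real.sqrt (lam α τ))
        (-(((2 * α + 1) * rho α t / lam α t ^ 2) / (2 * Real.sqrt (lam α t))) /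
          Real.sqrt (lam α t) ^ 2) t := by
      have h9 : HasDerivAt (fun τ => (Real.sqrt (lam α τ))⁻¹)
          (-(((2 * α + 1) * rho α t / lam α t ^ 2) / (2 * Real.sqrt (lam α t))) /
          Real.sqrt (lam α t) ^ 2) t := (c8.sqrt c2.ne').inv hs.ne'
      simpa only [one_div] using h9
    have h6 := h5.mul h4
    have h7 : deriv (fun τ => outr α v τ x) t = _ := h6.deriv
    have h8 : inn α (fun t x => deriv (fun τ => outr α v τ x) t) t y =
        Real.sqrt (lam α t) * deriv (fun τ => outr α v τ x) t := rfl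
    rw [h8, h7, hx]
    unfold Lam
    have hxs : x - sig α t = lam α t * y := by rw [hxdef]; ring
    rw [hxs]
    set s := Real.sqrt (lam α t) with hsdef
    rw [hs2]
    field_simp
    ring
  -- the flux
  have h4 : lam α t ^ 3 * (Real.sqrt (lam α t) *
      deriv (flux (outr α v t)) (sig α t + lam α t * y)) =
      deriv (fun y' => deriv (deriv (v t)) y' + v t y' ^ 5) y := by
    have hd1 : ContDiff ℝ (⊤ : ℕ∞) (deriv (v t)) := (contDiff_infty_iff_deriv.1 hsm).2
    have hd2 : ContDiff ℝ (⊤ : ℕ∞) (deriv (deriv (v t))) := (contDiff_infty_iff_deriv.1 hd1).2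
    have hY : ∀ x : ℝ, HasDerivAt (fun x => (x - sig α t) / lam α t) (1 / lam α t) x := by
      intro x
      exact ((hasDerivAt_id x).sub_const (sig α t)).div_const (lam α t)
    have e0 : outr α v t = fun x => (1 / Real.sqrt (lam α t)) * v t ((x - sig α t) / lam α t) := rfl
    have e1 : deriv (outr α v t) = fun x => (1 / Real.sqrt (lam α t)) *
        (deriv (v t) ((x - sig α t) / lam α t) * (1 / lam α t)) := by
      funext x
      rw [e0]
      have hd : HasDerivAt (v t) (deriv (v t) ((x - sig α t) / lam α t))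
        ((x - sig α t) / lam α t) := ((hsm.differentiable (by simp)) _).hasDerivAt
      exact ((hd.comp x (hY x)).const_mul _).deriv
    have e2 : deriv (deriv (outr α v t)) = fun x => (1 / Real.sqrt (lam α t)) *
        (deriv (deriv (v t)) ((x - sig α t) / lam α t) * (1 / lam α t) * (1 / lam α t)) := by
      funext x
      rw [e1]
      have hd : HasDerivAt (deriv (v t)) (deriv (deriv (v t)) ((x - sig α t) / lam α t))
        ((x - sig α t) / lam α t) := ((hd1.differentiable (by simp)) _).hasDerivAt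
      exact (((hd.comp x (hY x)).mul_const _).const_mul _).deriv
    have e3 : flux (outr α v t) = fun x => (1 / (Real.sqrt (lam α t) ^ 5)) *
        ((fun y' => deriv (deriv (v t)) y' + v t y' ^ 5) ((x - sig α t) / lam α t)) := by
      funext x
      unfold flux
      rw [iteratedDeriv_succ, iteratedDeriv_one, e2, e0]
      simp only
      have h1 : (1 / lam α t) = 1 / Real.sqrt (lam α t) ^ 2 := by rw [← hs2]
      rw [h1]
      field_simp
    rw [e3]
    have hg : Differentiable ℝ (fun y' => deriv (deriv (v t)) y' + v t y' ^ 5) := by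
      have h1 : Differentiable ℝ (deriv (deriv (v t))) := hd2.differentiable (by simp)
      have h2 : Differentiable ℝ (v t) := hsm.differentiable (by simp)
      fun_prop
    have hd : HasDerivAt (fun y' => deriv (deriv (v t)) y' + v t y' ^ 5)
        (deriv (fun y' => deriv (deriv (v t)) y' + v t y' ^ 5) y)
        ((sig α t + lam α t * y - sig α t) / lam α t) := by
      rw [hx]
      exact (hg y).hasDerivAt
    have h5 := ((hd.comp (sig α t + lam α t * y) (hY _)).const_mul
      (1 / (Real.sqrt (lam α t) ^ 5))).deriv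
    have h6 : deriv (fun x => (1 / (Real.sqrt (lam α t) ^ 5)) *
        ((fun y' => deriv (deriv (v t)) y' + v t y' ^ 5) ((x - sig α t) / lam α t)))
        (sig α t + lam α t * y) = (1 / (Real.sqrt (lam α t) ^ 5)) *
        (deriv (fun y' => deriv (deriv (v t)) y' + v t y' ^ 5) y * (1 / lam α t)) := h5
    rw [h6]
    have h7 : lam α t ^ 3 = Real.sqrt (lam α t) ^ 6 := by
      nth_rewrite 1 [hs2]
      ring
    have h1 : (1 / lam α t) = 1 / Real.sqrt (lam α t) ^ 2 := by rw [← hs2]
    rw [h7, h1]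
    field_simp
  refine ⟨hinn, ?_, h3⟩
  have hres : resid α (outr α v) (fun t x => deriv (fun τ => outr α v τ x) t) t y =
      lam α t ^ 3 * inn α (fun t x => deriv (fun τ => outr α v τ x) t) t y +
      lam α t ^ 3 * (Real.sqrt (lam α t) *
      deriv (flux (outr α v t)) (sig α t + lam α t * y)) := by
    unfold resid inn
    ring
  rw [hres, h3, h4]
  unfold resE
  have hd1 : ContDiff ℝ (⊤ : ℕ∞) (deriv (v t)) := (contDiff_infty_iff_deriv.1 hsm).2
  have hd2 : ContDiff ℝ (⊤ : ℕ∞) (deriv (deriv (v t))) := (contDiff_infty_iff_deriv.1 hd1).2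
  have k0 : HasDerivAt (v t) (deriv (v t) y) y := ((hsm.differentiable (by simp)) y).hasDerivAt
  have k2 : HasDerivAt (deriv (deriv (v t))) (deriv (deriv (deriv (v t))) y) y :=
    ((hd2.differentiable (by simp)) y).hasDerivAt
  have f1 : deriv (fun y' => deriv (deriv (v t)) y' + v t y' ^ 5) y = _ :=
    (k2.add (k0.pow 5)).deriv
  have f2 : deriv (fun y' => deriv (deriv (v t)) y' - v t y' + v t y' ^ 5) y = _ :=
    ((k2.sub k0).add (k0.pow 5)).deriv
  rw [f1, f2]
  ring

end Pool.Agent.Helper41.KV
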