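import Pool.Agent.Helper41.KV.GoalsD

/-!
# Project KV (`MP_66be51_an`), packet HC: smooth functions with support in `[-1,1]`
-/

namespace Pool.Agent.Helper41.KV

open Real MeasureTheory Pool.Agent.Helper33.KV

/-! ## Partial derivatives on the open strip -/

/-- the open strip -/
def hcS (T1 : ℝ) : Set (ℝ × ℝ) := Set.Ioo 0 T1 ×ˢ Set.univ

theorem hcS_open (T1 : ℝ) : IsOpen (hcS T1) := isOpen_Ioo.prod isOpen_univ

theorem hc_diffAt {F : ℝ × ℝ → ℝ} {T1 : ℝ} (hF : ContDiffOn ℝ (⊤ : ℕ∞) F (hcS T1)) {q : ℝ × ℝ}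
    (hq : q ∈ hcS T1) : DifferentiableAt ℝ F q :=
  (hF.contDiffAt ((hcS_open T1).mem_nhds hq)).differentiableAt (by simp)

theorem hc_dx {F : ℝ × ℝ → ℝ} {T1 : ℝ} (hF : ContDiffOn ℝ (⊤ : ℕ∞) F (hcS T1)) {q : ℝ × ℝ}
    (hq : q ∈ hcS T1) : HasDerivAt (fun x => F (q.1, x)) (fderiv ℝ F q (0, 1)) q.2 := by
  have h3 : HasDerivAt (fun y : ℝ => (q.1, y)) ((0 : ℝ), (1 : ℝ)) q.2 :=
    (hasDerivAt_const q.2 q.1).prodMk (hasDerivAt_id q.2)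
  exact (hc_diffAt hF hq).hasFDerivAt.comp_hasDerivAt q.2 h3

theorem hc_dt {F : ℝ × ℝ → ℝ} {T1 : ℝ} (hF : ContDiffOn ℝ (⊤ : ℕ∞) F (hcS T1)) {q : ℝ × ℝ}
    (hq : q ∈ hcS T1) : HasDerivAt (fun τ => F (τ, q.2)) (fderiv ℝ F q (1, 0)) q.1 := by
  have h3 : HasDerivAt (fun τ : ℝ => (τ, q.2)) ((1 : ℝ), (0 : ℝ)) q.1 :=
    (hasDerivAt_id q.1).prodMk (hasDerivAt_const q.1 q.2)
  exact (hc_diffAt hF hq).hasFDerivAt.comp_hasDerivAt q.1 h3

theorem hc_sm {F : ℝ × ℝ → ℝ} {T1 : ℝ} (hF : ContDiffOn ℝ (⊤ : ℕ∞) F (hcS T1)) (e : ℝ × ℝ) :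
    ContDiffOn ℝ (⊤ : ℕ∞) (fun q => fderiv ℝ F q e) (hcS T1) :=
  (hF.fderiv_of_isOpen (hcS_open T1) (by simp)).clm_apply contDiffOn_const

theorem hc_symm {F : ℝ × ℝ → ℝ} {T1 : ℝ} (hF : ContDiffOn ℝ (⊤ : ℕ∞) F (hcS T1)) {q : ℝ × ℝ}
    (hq : q ∈ hcS T1) (a b : ℝ × ℝ) :
    fderiv ℝ (fun q => fderiv ℝ F q a) q b = fderiv ℝ (fun q => fderiv ℝ F q b) q a := by
  have h1 : DifferentiableAt ℝ (fderiv ℝ F) q :=
    ((hF.fderiv_of_isOpen (hcS_open T1) (m := (⊤ : ℕ∞)) (by simp)).contDiffAt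
      ((hcS_open T1).mem_nhds hq)).differentiableAt (by simp)
  have h2 : ∀ c d : ℝ × ℝ, fderiv ℝ (fun q => fderiv ℝ F q c) q d =
      fderiv ℝ (fderiv ℝ F) q d c := by
    intro c d
    rw [fderiv_clm_apply h1 (differentiableAt_const c)]
    simp
  rw [h2, h2]
  have h3 : ContDiffAt ℝ (⊤ : ℕ∞) F q := hF.contDiffAt ((hcS_open T1).mem_nhds hq)
  have h4 : IsSymmSndFDerivAt ℝ F q := by
    apply h3.isSymmSndFDerivAt
    rw [minSmoothness_of_isRCLikeNormedField]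
    exact WithTop.coe_le_coe.2 (le_top : (2 : ℕ∞) ≤ ⊤)
  exact h4 b a

/-! ## Iterated derivatives -/

theorem hc_iter {W : ℝ → ℝ → ℝ} {T1 : ℝ}
    (hW : ContDiffOn ℝ (⊤ : ℕ∞) (fun q : ℝ × ℝ => W q.1 q.2) (hcS T1)) (k : ℕ) :
    ContDiffOn ℝ (⊤ : ℕ∞) (fun q : ℝ × ℝ => iteratedDeriv k (W q.1) q.2) (hcS T1) := by
  induction k with
  | zero => simpa only [iteratedDeriv_zero] using hW
  | succ k ih =>
    have h1 := hc_sm ih (0, 1)
    refine h1.congr fun q hq => ?_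
    rw [iteratedDeriv_succ]
    exact (hc_dx ih hq).deriv

theorem hc_time {W : ℝ → ℝ → ℝ} {T1 : ℝ}
    (hW : ContDiffOn ℝ (⊤ : ℕ∞) (fun q : ℝ × ℝ => W q.1 q.2) (hcS T1)) :
    ContDiffOn ℝ (⊤ : ℕ∞) (fun q : ℝ × ℝ => deriv (fun τ => W τ q.2) q.1) (hcS T1) := by
  have h1 := hc_sm hW (1, 0)
  refine h1.congr fun q hq => ?_
  exact (hc_dt hW hq).deriv

theorem hc_comm {W : ℝ → ℝ → ℝ} {T1 : ℝ}
    (hW : ContDiffOn ℝ (⊤ : ℕ∞) (fun q : ℝ × ℝ => W q.1 q.2) (hcS T1)) (k : ℕ) :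
    ∀ q ∈ hcS T1, fderiv ℝ (fun q : ℝ × ℝ => iteratedDeriv k (W q.1) q.2) q (1, 0) =
      iteratedDeriv k (fun x => deriv (fun τ => W τ x) q.1) q.2 := by
  induction k with
  | zero =>
    intro q hq
    simp only [iteratedDeriv_zero]
    exact (hc_dt hW hq).deriv.symm
  | succ k ih =>
    intro q hq
    have h0 := hc_iter hW k
    have h1 : fderiv ℝ (fun q : ℝ × ℝ => iteratedDeriv (k + 1) (W q.1) q.2) q =
        fderiv ℝ (fun q => fderiv ℝ (fun q : ℝ × ℝ => iteratedDeriv k (W q.1) q.2) q (0, 1)) q := by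
      apply Filter.EventuallyEq.fderiv_eq
      filter_upwards [(hcS_open T1).mem_nhds hq] with p hp
      rw [iteratedDeriv_succ]
      exact (hc_dx h0 hp).deriv
    rw [h1, hc_symm h0 hq, iteratedDeriv_succ]
    have h2 := hc_dx (hc_sm h0 (1, 0)) hq
    rw [← h2.deriv]
    congr 1
    funext x
    have hx : (q.1, x) ∈ hcS T1 := ⟨hq.1, Set.mem_univ _⟩
    exact ih (q.1, x) hx

/-! ## Vanishing and integrals -/

theorem hc_van {f : ℝ → ℝ} (hf : ∀ x, x ∉ Set.Icc (-1 : ℝ) 1 → f x = 0) (k : ℕ) (x : ℝ)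
    (hx : x ∉ Set.Icc (-1 : ℝ) 1) : iteratedDeriv k f x = 0 := by
  have h1 : f =ᶠ[nhds x] fun _ => 0 := by
    filter_upwards [isClosed_Icc.isOpen_compl.mem_nhds hx] with z hz
    exact hf z hz
  rw [Filter.EventuallyEq.iteratedDeriv_eq k h1]
  simp

theorem hc_hinf {W : ℝ → ℝ → ℝ} {T1 : ℝ}
    (hW : ContDiffOn ℝ (⊤ : ℕ∞) (fun q : ℝ × ℝ => W q.1 q.2) (hcS T1))
    (hs : ∀ t ∈ Set.Ioo 0 T1, ∀ x, x ∉ Set.Icc (-1 : ℝ) 1 → W t x = 0) (t1 t2 : ℝ) (ht1 : 0 < t1)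
    (ht2 : t2 < T1) : HInf W t1 t2 := by
  have hsub : Set.Icc t1 t2 ⊆ Set.Ioo 0 T1 := fun t ht => ⟨ht1.trans_le ht.1, ht.2.trans_lt ht2⟩
  have hsm : ∀ t ∈ Set.Icc t1 t2, ContDiff ℝ (⊤ : ℕ∞) (W t) := by
    intro t ht
    have h1 : ContDiff ℝ (⊤ : ℕ∞) (fun y : ℝ => ((t : ℝ), y)) := by fun_prop
    exact hW.comp_contDiff h1 (fun y => ⟨hsub ht, Set.mem_univ _⟩)
  have hcont : ∀ k : ℕ, ContinuousOn (fun p : ℝ × ℝ => iteratedDeriv k (W p.1) p.2)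
      (Set.Icc t1 t2 ×ˢ Set.univ) := by
    intro k
    refine (hc_iter hW k).continuousOn.mono ?_
    exact Set.prod_mono hsub subset_rfl
  have hvan : ∀ k : ℕ, ∀ t ∈ Set.Icc t1 t2, ∀ x, x ∉ Set.Icc (-1 : ℝ) 1 →
      iteratedDeriv k (W t) x = 0 := fun k t ht x hx => hc_van (hs t (hsub ht)) k x hx
  have hcs : ∀ k : ℕ, ∀ t ∈ Set.Icc t1 t2, HasCompactSupport (iteratedDeriv k (W t)) :=
    fun k t ht => HasCompactSupport.intro isCompact_Icc (hvan k t ht)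
  have hck : ∀ k : ℕ, ∀ t ∈ Set.Icc t1 t2, Continuous (iteratedDeriv k (W t)) := by
    intro k t ht
    exact (hsm t ht).continuous_iteratedDeriv k (by exact_mod_cast le_top)
  refine ⟨hsm, hcont, ?_, ?_⟩
  · intro k t ht
    exact (hck k t ht).memLp_of_hasCompactSupport (hcs k t ht)
  · intro k
    have hK : IsCompact (Set.Icc t1 t2 ×ˢ Set.Icc (-1 : ℝ) 1) := isCompact_Icc.prod isCompact_Icc
    have hc : ContinuousOn (fun p : ℝ × ℝ => iteratedDeriv k (W p.1) p.2 ^ 2)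
        (Set.Icc t1 t2 ×ˢ Set.Icc (-1 : ℝ) 1) :=
      ((hcont k).mono (Set.prod_mono subset_rfl (Set.subset_univ _))).pow 2
    obtain ⟨B, hB⟩ := hK.bddAbove_image hc
    refine ⟨B * 2, fun t ht => ?_⟩
    have h1 : (∫ x, (iteratedDeriv k (W t) x) ^ 2) =
        ∫ x in Set.Icc (-1 : ℝ) 1, (iteratedDeriv k (W t) x) ^ 2 := by
      rw [setIntegral_eq_integral_of_forall_compl_eq_zero]
      intro x hx
      rw [hvan k t ht x hx]
      simp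
    rw [h1]
    have h2 : ∀ x ∈ Set.Icc (-1 : ℝ) 1, (iteratedDeriv k (W t) x) ^ 2 ≤ B := by
      intro x hx
      exact hB ⟨(t, x), ⟨ht, hx⟩, rfl⟩
    have h3 : (∫ x in Set.Icc (-1 : ℝ) 1, (iteratedDeriv k (W t) x) ^ 2) ≤
        ∫ x in Set.Icc (-1 : ℝ) 1, B := by
      apply setIntegral_mono_on
      · exact (((hck k t ht).pow 2).continuousOn).integrableOn_compact isCompact_Icc
      · exact integrableOn_const (by simp)
      · exact measurableSet_Icc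
      · exact h2
    refine h3.trans (le_of_eq ?_)
    rw [setIntegral_const]
    simp
    ring

theorem thm_HC : S_HC := by
  intro W T1 hT1 hW hs t1 t2 ht1 ht12 ht2
  have hW' : ContDiffOn ℝ (⊤ : ℕ∞) (fun q : ℝ × ℝ => W q.1 q.2) (hcS T1) := hW
  have hWt := hc_time hW'
  have hs' : ∀ t ∈ Set.Ioo 0 T1, ∀ x, x ∉ Set.Icc (-1 : ℝ) 1 →
      (fun t x => deriv (fun τ => W τ x) t) t x = 0 := by
    intro t ht x hx
    have h1 : (fun τ => W τ x) =ᶠ[nhds t] fun _ => 0 := by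
      filter_upwards [isOpen_Ioo.mem_nhds ht] with τ hτ
      exact hs τ hτ x hx
    simp only
    rw [h1.deriv_eq]
    simp
  refine ⟨hc_hinf hW' hs t1 t2 ht1 ht2, ?_, ?_⟩
  · exact hc_hinf (W := fun t x => deriv (fun τ => W τ x) t) hWt hs' t1 t2 ht1 ht2
  · intro k t ht x
    have hq : (t, x) ∈ hcS T1 := ⟨⟨ht1.trans_le ht.1, ht.2.trans_lt ht2⟩, Set.mem_univ _⟩
    have h1 := hc_dt (hc_iter hW' k) hq
    rw [hc_comm hW' k (t, x) hq] at h1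
    exact h1.hasDerivWithinAt

end Pool.Agent.Helper41.KV
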